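import Pool.Agent.H58Ed.Glob

/-!
# Degree and edge bounds for Grünbaum's graphs (MP_578bb3_co)
-/

set_option autoImplicit false

namespace Pool.Agent.Results.MP_578bb3_co.EdgeDegrees

open SimpleGraph Pool.Agent.H58Ed

/-- Let `G` be a finite simple graph on `n ≥ 5` vertices as in Grünbaum's question: `G` has no
Hamiltonian cycle, no `G - v` has one, and every `G - v - w` has one.  Then
(1) `2 (d(x) + d(y)) ≤ n + |N(x) ∩ N(y)|` for every edge `xy`;
(2) `2 |N(x) ∪ N(y)| ≤ n` for all nonadjacent `x ≠ y`;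
(3) `d(x) + 2 d(y) + 4 ≤ n` for every edge `xy`;
(4) `2 d(v) + 8 ≤ n` for every vertex `v`;
(5) `6 |E(G)| + 4 n ≤ n²`;
(6) `8 |E(G)|² + 6 n² |E(G)| ≤ n⁴`, and `7 |E(G)| < n²`. -/
theorem result {V : Type*} [Fintype V] [DecidableEq V] (G : SimpleGraph V) [DecidableRel G.Adj]
    (h5 : 5 ≤ Fintype.card V)
    (h0 : ¬ ∃ a : V, ∃ p : G.Walk a a, p.IsHamiltonianCycle)
    (h1 : ∀ v : V, ¬ ∃ a : ↥(({v}ᶜ : Set V)),
      ∃ p : (G.induce ({v}ᶜ : Set V)).Walk a a, p.IsHamiltonianCycle)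
    (h2 : ∀ v w : V, v ≠ w → ∃ a : ↥(({v, w}ᶜ : Set V)),
      ∃ p : (G.induce ({v, w}ᶜ : Set V)).Walk a a, p.IsHamiltonianCycle) :
    (∀ x y : V, G.Adj x y → 2 * (G.degree x + G.degree y)
      ≤ Fintype.card V + (G.neighborFinset x ∩ G.neighborFinset y).card) ∧
    (∀ x y : V, x ≠ y → ¬ G.Adj x y →
      2 * (G.neighborFinset x ∪ G.neighborFinset y).card ≤ Fintype.card V) ∧
    (∀ x y : V, G.Adj x y → G.degree x + 2 * G.degree y + 4 ≤ Fintype.card V) ∧
    (∀ v : V, 2 * G.degree v + 8 ≤ Fintype.card V) ∧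
    6 * G.edgeFinset.card + 4 * Fintype.card V ≤ Fintype.card V ^ 2 ∧
    8 * G.edgeFinset.card ^ 2 + 6 * Fintype.card V ^ 2 * G.edgeFinset.card
      ≤ Fintype.card V ^ 4 ∧
    7 * G.edgeFinset.card < Fintype.card V ^ 2 := by
  have k1 : ∀ x y : V, G.Adj x y → 2 * (G.degree x + G.degree y)
      ≤ Fintype.card V + (G.neighborFinset x ∩ G.neighborFinset y).card :=
    fun x y hxy => edge_ineq h5 h0 h1 h2 hxy
  have k0 : ∀ x y : V, x ≠ y → ¬ G.Adj x y →
      2 * (G.neighborFinset x ∪ G.neighborFinset y).card ≤ Fintype.card V :=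
    fun x y hne hxy => nonedge_ineq h0 h1 h2 hne hxy
  have k2 : ∀ x y : V, G.Adj x y → G.degree x + 2 * G.degree y + 4 ≤ Fintype.card V := by
    intro x y hxy
    have e1 := k1 x y hxy
    have e2 := common_le h5 h1 h2 hxy
    omega
  have k3 : ∀ v : V, 2 * G.degree v + 8 ≤ Fintype.card V := by
    intro v
    obtain ⟨x, hx⟩ := exists_nbr h5 h2 v
    have e1 := common_le h5 h1 h2 hx.symm
    have e2 := k2 x v hx.symm
    omega
  have k4 := edges_global G k1 k0 (fun v => by have := k3 v; omega)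
  exact ⟨k1, k0, k2, k3, edges_le h5 k2, k4, seven_edges (by omega) k4⟩

end Pool.Agent.Results.MP_578bb3_co.EdgeDegrees
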