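import Pool.Agent.H48Cut.Comp

/-!
# Small cuts of Grünbaum's graphs (MP_578bb3_co)
-/

set_option autoImplicit false

namespace Pool.Agent.Results.MP_578bb3_co.FourCuts

open SimpleGraph Pool.Agent.H58Ed Pool.Agent.H48Cut

/-- Let `G` be a finite simple graph on `n ≥ 5` vertices such that no `G - v` is Hamiltonian and
every `G - v - w` is Hamiltonian (second and third condition of Grünbaum's question), and let `T`
be a set of vertices such that `G - T` is disconnected. Then `G - T` has at most `|T| - 2`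
components (so `G` is 4-connected). If `|T| = 4`, then no two vertices of `T` are adjacent, no
component of `G - T` has exactly two or three vertices, and for every component `K` and any two
vertices `a`, `b` of `T` there is a path from `a` to `b` whose inner vertices are exactly the
vertices of `K`. -/
theorem result {V : Type*} [Fintype V] [DecidableEq V] (G : SimpleGraph V)
    (h5 : 5 ≤ Fintype.card V)
    (h1 : ∀ v : V, ¬ ∃ a : ↥(({v}ᶜ : Set V)),
      ∃ p : (G.induce ({v}ᶜ : Set V)).Walk a a, p.IsHamiltonianCycle)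
    (h2 : ∀ v w : V, v ≠ w → ∃ a : ↥(({v, w}ᶜ : Set V)),
      ∃ p : (G.induce ({v, w}ᶜ : Set V)).Walk a a, p.IsHamiltonianCycle)
    (T : Finset V) (hT : ¬ (G.induce ((T : Set V)ᶜ)).Preconnected) :
    Nat.card (G.induce ((T : Set V)ᶜ)).ConnectedComponent + 2 ≤ T.card ∧
    (T.card = 4 → (∀ a ∈ T, ∀ b ∈ T, ¬ G.Adj a b) ∧
      ∀ K : (G.induce ((T : Set V)ᶜ)).ConnectedComponent,
        K.supp.ncard ≠ 2 ∧ K.supp.ncard ≠ 3 ∧
        ∀ a ∈ T, ∀ b ∈ T, a ≠ b → ∃ p : G.Walk a b, p.IsPath ∧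
          ∀ x : V, x ∈ p.support ↔ x = a ∨ x = b ∨ ∃ y ∈ K.supp, (y : V) = x) := by
  classical
  have h2' : ∀ v w : V, v ≠ w → ∃ (m : ℕ) (f : ℕ → V), Cyc G ({v, w}ᶜ : Set V) m f := by
    intro v w hvw
    obtain ⟨a, p, hp⟩ := h2 v w hvw
    obtain ⟨f, hf⟩ := cyc_of_ham G ({v, w}ᶜ : Set V) a p hp
    exact ⟨_, f, hf⟩
  refine ⟨comp_count h5 h2' hT, fun h4 => ⟨?_, ?_⟩⟩
  · intro a ha b hb hab
    obtain ⟨K⟩ : Nonempty (G.induce ((T : Set V)ᶜ)).ConnectedComponent := by
      by_contra hcon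
      apply hT
      intro x y
      exact absurd ⟨(G.induce ((T : Set V)ᶜ)).connectedComponentMk x⟩ hcon
    obtain ⟨L, hKL⟩ := exists_other hT K
    exact indep4 h1 h2' (sep_part hKL) h4 ha hb hab
  · intro K
    obtain ⟨L, hKL⟩ := exists_other hT K
    have hs := sep_part hKL
    have hn : (part T K).ncard = K.supp.ncard :=
      Set.ncard_image_of_injective _ Subtype.val_injective
    refine ⟨?_, ?_, ?_⟩
    · rw [← hn]; exact ne_two h1 h2' hs h4
    · rw [← hn]; exact ne_three h5 h1 h2' hs h4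
    · intro a ha b hb hab
      obtain ⟨p, hp, hx⟩ := (paths4 h2' hs h4 ha hb hab).1.walk hab (hs.notA a ha) (hs.notA b hb)
      refine ⟨p, hp, fun x => ?_⟩
      rw [hx x]
      rfl

end Pool.Agent.Results.MP_578bb3_co.FourCuts
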