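import Pool.Agent.Gru.Final

set_option autoImplicit false

namespace Pool.Agent.Results.MP_578bb3_co.NearSolution

open Pool.Agent.Gru

/-- For every `N0` there is a finite simple graph `G` on `n ≥ N0` (and `n ≥ 5`) vertices such that
`G` has no Hamiltonian cycle, deleting any one vertex leaves no Hamiltonian cycle, and for every
vertex `v` there are at most 181 vertices `w ≠ v` such that `G - v - w` has no Hamiltonian cycle. -/
theorem result (N0 : ℕ) :
    ∃ n : ℕ, N0 ≤ n ∧ 5 ≤ n ∧ ∃ G : SimpleGraph (Fin n),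
      (¬ ∃ a : Fin n, ∃ p : G.Walk a a, p.IsHamiltonianCycle) ∧
      (∀ v : Fin n, ¬ ∃ a : ↥(({v}ᶜ : Set (Fin n))),
          ∃ p : (G.induce ({v}ᶜ : Set (Fin n))).Walk a a, p.IsHamiltonianCycle) ∧
      (∀ v : Fin n, {w : Fin n | v ≠ w ∧ ¬ ∃ a : ↥(({v, w}ᶜ : Set (Fin n))),
          ∃ p : (G.induce ({v, w}ᶜ : Set (Fin n))).Walk a a, p.IsHamiltonianCycle}.ncard
            ≤ 181) := by
  classical
  let N := N0 + 1
  have hcard : Fintype.card (VV N) = 14 * N + 2 := by
    simp only [VV, Fintype.card_sum, Fintype.card_prod, Fintype.card_fin]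
    ring
  let e : VV N ≃ Fin (14 * N + 2) := Fintype.equivFinOfCardEq hcard
  have hNX : 2 ≤ Fintype.card (Fin (2 * N)) := by
    rw [Fintype.card_fin]; omega
  have hSX : Fintype.card (Fin (2 * N + 2)) = Fintype.card (Fin (2 * N)) + 2 := by
    rw [Fintype.card_fin, Fintype.card_fin]
  refine ⟨14 * N + 2, by omega, by omega, (Gr (nb N)).comap e.symm, ?_, ?_, ?_⟩
  · rintro ⟨a, p, hp⟩
    obtain ⟨F, hF⟩ := HF_of_ham _ (Gr (nb N)) e.symm e.symm.injective (fun a b h => h)
      (fun _ => True) (fun v => ⟨fun _ => ⟨e v, by simp⟩, fun _ => trivial⟩) a p hp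
    exact nonHam (nb_inj N) hSX hNX (fun u v hu _ => absurd trivial hu) hF
  · rintro v ⟨a, p, hp⟩
    obtain ⟨F, hF⟩ := HF_of_ham _ (Gr (nb N)) (fun x : ↥(({v}ᶜ : Set (Fin (14 * N + 2)))) =>
        e.symm x.1)
      (fun x y hxy => Subtype.ext (e.symm.injective hxy)) (fun a b h => h)
      (fun u => u ≠ e.symm v) (fun u => ⟨fun hu => ⟨⟨e u, by
          intro h
          apply hu
          rw [← (show e u = v from h)]
          simp⟩, by simp⟩, by
        rintro ⟨⟨x, hx⟩, rfl⟩ h
        exact hx (e.symm.injective h)⟩) a p hp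
    exact nonHam (nb_inj N) hSX hNX (fun u w hu hw => by
      rw [not_not] at hu hw
      rw [hu, hw]) hF
  · intro v
    have himg : {w : Fin (14 * N + 2) | v ≠ w ∧
        ¬ ∃ a : ↥(({v, w}ᶜ : Set (Fin (14 * N + 2)))),
          ∃ p : (((Gr (nb N)).comap e.symm).induce
            ({v, w}ᶜ : Set (Fin (14 * N + 2)))).Walk a a, p.IsHamiltonianCycle}.ncard =
        (e.symm '' {w : Fin (14 * N + 2) | v ≠ w ∧
        ¬ ∃ a : ↥(({v, w}ᶜ : Set (Fin (14 * N + 2)))),
          ∃ p : (((Gr (nb N)).comap e.symm).induce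
            ({v, w}ᶜ : Set (Fin (14 * N + 2)))).Walk a a, p.IsHamiltonianCycle}).ncard :=
      (Set.ncard_image_of_injective _ e.symm.injective).symm
    rw [himg]
    apply near_card N (e.symm v)
    · rintro ⟨w, ⟨hw, _⟩, hw'⟩
      exact hw (e.symm.injective hw').symm
    · rintro u ⟨w, ⟨hvw, hw⟩, rfl⟩
      by_contra hcon
      apply hw
      obtain ⟨F, hF⟩ := far_HF' N (e.symm v) (e.symm w) (by omega)
      have hne : Nonempty ↥(({v, w}ᶜ : Set (Fin (14 * N + 2)))) := by
        by_contra hem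
        have hall : ∀ x : Fin (14 * N + 2), x = v ∨ x = w := by
          intro x
          by_contra hx
          exact hem ⟨⟨x, hx⟩⟩
        have h0 := hall ⟨0, by omega⟩
        have h1 := hall ⟨1, by omega⟩
        have h2 := hall ⟨2, by omega⟩
        rcases h0 with h0 | h0 <;> rcases h1 with h1 | h1 <;> rcases h2 with h2 | h2 <;>
          first
            | (have := h0.trans h1.symm; simp at this)
            | (have := h0.trans h2.symm; simp at this)
            | (have := h1.trans h2.symm; simp at this)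
      refine ham_of_HF _ (Gr (nb N)) (fun x : ↥(({v, w}ᶜ : Set (Fin (14 * N + 2)))) => 
          e.symm x.1)
        (fun x y hxy => Subtype.ext (e.symm.injective hxy)) (fun a b h => h)
        (fun u => u ≠ e.symm v ∧ u ≠ e.symm w) (fun u => ⟨fun hu => ⟨⟨e u, ?_⟩, ?_⟩, ?_⟩) F hF
      · rintro (h | h)
        · apply hu.1
          rw [← h]
          simp
        · apply hu.2
          rw [← (show e u = w from h)]
          simp
      · simp
      · rintro ⟨⟨x, hx⟩, rfl⟩
        refine ⟨fun h => hx (Or.inl (e.symm.injective h)), fun h => hx (Or.inr ?_)⟩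
        exact e.symm.injective h

end Pool.Agent.Results.MP_578bb3_co.NearSolution
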