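import Pool.Agent.Gru.LocalS

/-!
# No claw-free example for Gruenbaum's question

If all `G - v - w` are Hamiltonian and no `G - v` is, then a neighbour `a` of `v` and a vertex `b`
adjacent to `v` (or to `a`, if `G` is not Hamiltonian) leave at least two neighbours of `v`
undominated; hence every vertex is the centre of an induced claw.
-/

set_option autoImplicit false

namespace Pool.Agent.Results.MP_578bb3_co.NoClawFree

open Pool.Agent.Gru

/-- `v` is the centre of an induced claw: it has three different pairwise nonadjacent neighbours. -/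
def ClawCentre {n : ℕ} (G : SimpleGraph (Fin n)) (v : Fin n) : Prop :=
  ∃ a b c, G.Adj v a ∧ G.Adj v b ∧ G.Adj v c ∧ a ≠ b ∧ a ≠ c ∧ b ≠ c ∧
    ¬ G.Adj a b ∧ ¬ G.Adj a c ∧ ¬ G.Adj b c

theorem result (n : ℕ) (hn : 5 ≤ n) (G : SimpleGraph (Fin n))
    (hdel : ∀ v : Fin n, ¬ ∃ a : ↥(({v}ᶜ : Set (Fin n))),
      ∃ p : (G.induce ({v}ᶜ : Set (Fin n))).Walk a a, p.IsHamiltonianCycle)
    (hdel2 : ∀ v w : Fin n, v ≠ w → ∃ a : ↥(({v, w}ᶜ : Set (Fin n))),
      ∃ p : (G.induce ({v, w}ᶜ : Set (Fin n))).Walk a a, p.IsHamiltonianCycle) :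
    (∀ v a b : Fin n, G.Adj v a → b ≠ v → b ≠ a →
      (G.Adj v b ∨ (G.Adj a b ∧ ¬ ∃ x : Fin n, ∃ p : G.Walk x x, p.IsHamiltonianCycle)) →
      2 ≤ {c | G.Adj v c ∧ c ≠ a ∧ c ≠ b ∧ ¬ G.Adj a c ∧ ¬ G.Adj b c}.ncard) ∧
    (∀ v : Fin n, ClawCentre G v) :=
  ⟨fun _ _ _ hva hbv hba hb => local_two hdel hdel2 hva hbv hba hb,
    fun v => claw hn hdel hdel2 v⟩

end Pool.Agent.Results.MP_578bb3_co.NoClawFree
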